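import Mathlib

/-!
# Two-sided ideals of the group ring and irreducible representations
-/

set_option autoImplicit false

open scoped MonoidAlgebra

namespace Pool.Agent.N430.EQ

variable {G : Type} [Group G] [Fintype G]

/-- The element of the rational group ring. -/
noncomputable def toA (α : G → ℤ) : MonoidAlgebra ℚ G := ∑ g, MonoidAlgebra.single g (α g : ℚ)

theorem toA_add (α β : G → ℤ) : toA (α + β) = toA α + toA β := by
  simp only [toA, ← Finset.sum_add_distrib]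
  refine Finset.sum_congr rfl fun g _ => ?_
  rw [Pi.add_apply, Int.cast_add, MonoidAlgebra.single_add]

theorem toA_zsmul (n : ℤ) (α : G → ℤ) : toA (n • α) = (n : ℚ) • toA α := by
  simp only [toA, Finset.smul_sum]
  refine Finset.sum_congr rfl fun g _ => ?_
  rw [MonoidAlgebra.smul_single]
  simp

theorem toA_injective : Function.Injective (toA : (G → ℤ) → MonoidAlgebra ℚ G) := by
  classical
  intro α β h
  funext g
  have h1 : ∀ γ : G → ℤ, (toA γ).coeff g = (γ g : ℚ) := by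
    intro γ
    rw [toA, MonoidAlgebra.coeff_sum, Finsupp.finsetSum_apply]
    simp [Finsupp.single_apply]
  have h2 := h1 α
  rw [h, h1 β] at h2
  exact_mod_cast h2.symm

theorem single_mul_toA (h : G) (α : G → ℤ) :
    MonoidAlgebra.single h (1 : ℚ) * toA α = toA (fun g => α (h⁻¹ * g)) := by
  simp only [toA, Finset.mul_sum, MonoidAlgebra.single_mul_single, one_mul]
  refine Fintype.sum_equiv (Equiv.mulLeft h) _ _ fun g => ?_
  simp

theorem toA_mul_single (h : G) (α : G → ℤ) :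
    toA α * MonoidAlgebra.single h (1 : ℚ) = toA (fun g => α (g * h⁻¹)) := by
  simp only [toA, Finset.sum_mul, MonoidAlgebra.single_mul_single, mul_one]
  refine Fintype.sum_equiv (Equiv.mulRight h) _ _ fun g => ?_
  simp

/-- Elements of the rational group ring with a multiple in `I`. -/
def sat (I : AddSubgroup (G → ℤ)) (β : MonoidAlgebra ℚ G) : Prop :=
  ∃ n : ℤ, n ≠ 0 ∧ ∃ α ∈ I, (n : ℚ) • β = toA α

theorem sat_add {I : AddSubgroup (G → ℤ)} {β γ : MonoidAlgebra ℚ G} (hβ : sat I β)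
    (hγ : sat I γ) : sat I (β + γ) := by
  obtain ⟨n, hn, α, hα, h1⟩ := hβ
  obtain ⟨k, hk, δ, hδ, h2⟩ := hγ
  refine ⟨k * n, mul_ne_zero hk hn, k • α + n • δ, I.add_mem (I.zsmul_mem hα k)
    (I.zsmul_mem hδ n), ?_⟩
  rw [toA_add, toA_zsmul, toA_zsmul, ← h1, ← h2, smul_add, smul_smul, smul_smul]
  push_cast
  rw [mul_comm (n : ℚ) (k : ℚ)]

theorem sat_smul {I : AddSubgroup (G → ℤ)} {β : MonoidAlgebra ℚ G} (hβ : sat I β) (q : ℚ) :
    sat I (q • β) := by
  obtain ⟨n, hn, α, hα, h1⟩ := hβ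
  refine ⟨q.den * n, mul_ne_zero (by exact_mod_cast q.den_nz) hn, q.num • α,
    I.zsmul_mem hα _, ?_⟩
  rw [toA_zsmul, ← h1, smul_smul, smul_smul]
  congr 1
  push_cast
  have h2 : (q.den : ℚ) * q = q.num := by
    rw [mul_comm]
    exact Rat.mul_den_eq_num q
  rw [mul_right_comm, h2]

theorem sat_zero (I : AddSubgroup (G → ℤ)) : sat I (0 : MonoidAlgebra ℚ G) := by
  refine ⟨1, one_ne_zero, 0, I.zero_mem, ?_⟩
  simp [toA]

theorem sat_sum {I : AddSubgroup (G → ℤ)} {σ : Type} (s : Finset σ) (f : σ → MonoidAlgebra ℚ G)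
    (h : ∀ i ∈ s, sat I (f i)) : sat I (∑ i ∈ s, f i) := by
  classical
  induction s using Finset.induction_on with
  | empty => rw [Finset.sum_empty]; exact sat_zero I
  | insert i s hi ih =>
    rw [Finset.sum_insert hi]
    exact sat_add (h i (Finset.mem_insert_self i s))
      (ih fun j hj => h j (Finset.mem_insert_of_mem hj))

theorem eq_sum_single (r : MonoidAlgebra ℚ G) :
    r = ∑ g, r.coeff g • MonoidAlgebra.single g (1 : ℚ) := by
  classical
  ext g
  rw [MonoidAlgebra.coeff_sum, Finsupp.finsetSum_apply]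
  simp [Finsupp.single_apply]

theorem sat_mul_left {I : AddSubgroup (G → ℤ)}
    (hl : ∀ h : G, ∀ α ∈ I, (fun g => α (h⁻¹ * g)) ∈ I) {β : MonoidAlgebra ℚ G} (hβ : sat I β)
    (r : MonoidAlgebra ℚ G) : sat I (r * β) := by
  rw [eq_sum_single r, Finset.sum_mul]
  refine sat_sum _ _ fun g _ => ?_
  rw [smul_mul_assoc]
  apply sat_smul
  obtain ⟨n, hn, α, hα, h1⟩ := hβ
  refine ⟨n, hn, _, hl g α hα, ?_⟩
  rw [← single_mul_toA, ← h1, mul_smul_comm]

theorem sat_mul_right {I : AddSubgroup (G → ℤ)}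
    (hr : ∀ h : G, ∀ α ∈ I, (fun g => α (g * h⁻¹)) ∈ I) {β : MonoidAlgebra ℚ G} (hβ : sat I β)
    (r : MonoidAlgebra ℚ G) : sat I (β * r) := by
  rw [eq_sum_single r, Finset.mul_sum]
  refine sat_sum _ _ fun g _ => ?_
  rw [mul_smul_comm]
  apply sat_smul
  obtain ⟨n, hn, α, hα, h1⟩ := hβ
  refine ⟨n, hn, _, hr g α hα, ?_⟩
  rw [← toA_mul_single, ← h1, smul_mul_assoc]

/-- If no multiple of `e` is in the two-sided ideal `I`, then `e` is not zero on some irreducible
representation on which `I` is zero. -/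
theorem exists_rep (I : AddSubgroup (G → ℤ))
    (hl : ∀ h : G, ∀ α ∈ I, (fun g => α (h⁻¹ * g)) ∈ I)
    (hr : ∀ h : G, ∀ α ∈ I, (fun g => α (g * h⁻¹)) ∈ I) (e : G → ℤ)
    (he : ∀ n : ℤ, n ≠ 0 → n • e ∉ I) :
    ∃ (V : Type) (_ : AddCommGroup V) (_ : Module ℚ V) (σ : Representation ℚ G V),
      σ.IsIrreducible ∧ (∃ v, ∑ g, (e g : ℚ) • σ g v ≠ 0) ∧
      ∀ α ∈ I, ∀ v, ∑ g, (α g : ℚ) • σ g v = 0 := by
  classical
  let J : Submodule (MonoidAlgebra ℚ G) (MonoidAlgebra ℚ G) :=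
    { carrier := {β | sat I β}
      zero_mem' := sat_zero I
      add_mem' := fun h1 h2 => sat_add h1 h2
      smul_mem' := fun r β h => sat_mul_left hl h r }
  have hJ : ∀ β, β ∈ J ↔ sat I β := fun β => Iff.rfl
  have heJ : toA e ∉ J := by
    rw [hJ]
    rintro ⟨n, hn, α, hα, h1⟩
    rw [← toA_zsmul] at h1
    rw [← toA_injective h1] at hα
    exact he n hn hα
  have hne : (J.mkQ (toA e)) ∉ Module.jacobson (MonoidAlgebra ℚ G) (MonoidAlgebra ℚ G ⧸ J) := by
    rw [IsSemisimpleModule.jacobson_eq_bot, Submodule.mem_bot, Submodule.mkQ_apply,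
      Submodule.Quotient.mk_eq_zero]
    exact heJ
  rw [Module.jacobson, Submodule.mem_sInf] at hne
  push Not at hne
  obtain ⟨W, hW, heW⟩ := hne
  have hsimple : IsSimpleModule (MonoidAlgebra ℚ G) ((MonoidAlgebra ℚ G ⧸ J) ⧸ W) :=
    isSimpleModule_iff_isCoatom.2 hW
  have hact : ∀ (α : G → ℤ)
      (v : RestrictScalars ℚ (MonoidAlgebra ℚ G) ((MonoidAlgebra ℚ G ⧸ J) ⧸ W)),
      ∑ g, (α g : ℚ) • Representation.ofModule (k := ℚ) (G := G)
          ((MonoidAlgebra ℚ G ⧸ J) ⧸ W) g v =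
        (RestrictScalars.addEquiv ℚ (MonoidAlgebra ℚ G) ((MonoidAlgebra ℚ G ⧸ J) ⧸ W)).symm
          (toA α • RestrictScalars.addEquiv ℚ (MonoidAlgebra ℚ G)
            ((MonoidAlgebra ℚ G ⧸ J) ⧸ W) v) := by
    intro α v
    rw [← Representation.ofModule_asAlgebraHom_apply_apply, toA, map_sum, LinearMap.sum_apply]
    refine Finset.sum_congr rfl fun g _ => ?_
    rw [Representation.asAlgebraHom_single]
    rfl
  refine ⟨RestrictScalars ℚ (MonoidAlgebra ℚ G) ((MonoidAlgebra ℚ G ⧸ J) ⧸ W), _, _,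
    Representation.ofModule (k := ℚ) (G := G) ((MonoidAlgebra ℚ G ⧸ J) ⧸ W),
    (Representation.isSimpleModule_iff_irreducible_ofModule
      ((MonoidAlgebra ℚ G ⧸ J) ⧸ W)).1 hsimple, ?_, ?_⟩
  · refine ⟨(RestrictScalars.addEquiv ℚ (MonoidAlgebra ℚ G)
      ((MonoidAlgebra ℚ G ⧸ J) ⧸ W)).symm (W.mkQ (J.mkQ 1)), ?_⟩
    intro h
    have h0 := (hact e _).symm.trans h
    apply heW
    rw [map_eq_zero_iff _ (AddEquiv.injective _), AddEquiv.apply_symm_apply, ← map_smul,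
      ← map_smul, smul_eq_mul, mul_one, Submodule.mkQ_apply, Submodule.Quotient.mk_eq_zero] at h0
    exact h0
  · intro α hα v
    refine (hact α v).trans ?_
    rw [map_eq_zero_iff _ (AddEquiv.injective _)]
    obtain ⟨w, hw⟩ := W.mkQ_surjective (RestrictScalars.addEquiv ℚ (MonoidAlgebra ℚ G)
      ((MonoidAlgebra ℚ G ⧸ J) ⧸ W) v)
    obtain ⟨β, rfl⟩ := J.mkQ_surjective w
    rw [← hw, ← map_smul, ← map_smul, smul_eq_mul]
    have h1 : toA α * β ∈ J := by
      rw [hJ]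
      refine sat_mul_right hr ⟨1, one_ne_zero, α, hα, ?_⟩ β
      simp
    have h2 : J.mkQ (toA α * β) = 0 := by
      rw [Submodule.mkQ_apply, Submodule.Quotient.mk_eq_zero]
      exact h1
    rw [h2, map_zero]

end Pool.Agent.N430.EQ
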