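import Pool.Agent.N164.RP.Defs

/-!
# Finite groups of projective transformations and their group rings acting on zero-cycles

No theorem is proved in this file. The points, closed sets, varieties, zero-cycles and rational
equivalence are those of `Pool.Agent.N164.RP.Defs`.
-/

set_option autoImplicit false

open scoped LinearAlgebra.Projectivization

namespace Pool.Agent.N430.EQ

open Pool.Agent.N164.RP

variable {N : ℕ}

/-- The invertible linear maps of the vector space of the homogeneous coordinates of `P^N`. -/
abbrev Lin (N : ℕ) : Type := (Fin (N + 1) → ℂ) ≃ₗ[ℂ] (Fin (N + 1) → ℂ)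

/-- The projective transformation of `P^N` given by a linear map. -/
noncomputable def move (L : Lin N) : Pt N → Pt N :=
  Projectivization.map L.toLinearMap L.injective

variable {G : Type} [Group G] [Fintype G]

/-- The element `α = ∑ α g · g` of the group ring `ℤ[G]` applied to the zero-cycle `z`: the sum of the
`α g` times the translates `g z` of the cycle `z`, where `G` acts on `P^N` by the linear maps `ρ g`. -/
noncomputable def act (ρ : G →* Lin N) (α : G → ℤ) (z : Cycle N) : Cycle N :=
  ∑ g, α g • Finsupp.mapDomain (move (ρ g)) z

/-- The element `α` of the group ring is not zero on the representation `σ` of `G`. -/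
def NonzeroOn {V : Type} [AddCommGroup V] [Module ℚ V] (α : G → ℤ)
    (σ : Representation ℚ G V) : Prop :=
  ∃ v : V, ∑ g, (α g : ℚ) • σ g v ≠ 0

/-- There is a large relation with coefficients which are not zero on the representation `σ`
between the points of the variety `X` of dimension `d`, modulo the group `R` of zero-cycles: for some
`m` there are a closed subset `Z` of `X^m` of dimension greater than `m (d - 1)`, and elements `α i` of
the group ring, none of them zero on `σ`, such that `∑ α i [x i]` is constant modulo `R` on `Z`. -/
def LargeRelation (ρ : G →* Lin N) (X : Set (Pt N)) (d : ℕ) (R : AddSubgroup (Cycle N))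
    {V : Type} [AddCommGroup V] [Module ℚ V] (σ : Representation ℚ G V) : Prop :=
  ∃ (m : ℕ) (Z : Set (Fin m → Pt N)) (α : Fin m → G → ℤ),
    IsClosedSet Z ∧ (∀ p ∈ Z, ∀ i, p i ∈ X) ∧ DimGE Z (m * (d - 1) + 1) ∧
    (∀ i, NonzeroOn (α i) σ) ∧
    ∀ p ∈ Z, ∀ q ∈ Z, ∑ i, act ρ (α i) (pt (p i)) - ∑ i, act ρ (α i) (pt (q i)) ∈ R

end Pool.Agent.N430.EQ
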