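import Pool.Agent.N430.EQ.Lin

/-!
# The induction for different maps
-/

set_option autoImplicit false

open MvPolynomial
open scoped LinearAlgebra.Projectivization

namespace Pool.Agent.N430.EQ

open Pool.Agent.N164.RP

variable {N : ℕ}

theorem induction {A : Type} [AddCommGroup A] {X : Set (Pt N)} {d : ℕ}
    (hd : 1 ≤ d) (hirr : ∀ F G : Poly Unit N, VanishesOn (F * G) (one X) →
      VanishesOn F (one X) ∨ VanishesOn G (one X)) :
    ∀ (m : ℕ) (f : Fin m → Pt N → A) (K : Subfield ℂ), Base X d K → ∀ (H : AddSubgroup A)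
      (p : Fin m → Pt N), (∀ i, p i ∈ X) → ((m * (d - 1) + 1 : ℕ) : ℕ∞) ≤ rk K (Et p) →
      (∀ q ∈ Loc K p, ∀ q' ∈ Loc K p, ∑ i, (f i (q i) - f i (q' i)) ∈ H) →
      ∃ C, GoodCurve X C ∧ ∃ i, ∀ x ∈ X, ∀ y ∈ X,
        f i x - f i y ∈ H ⊔ AddSubgroup.closure (⋃ j, f j '' C) := by
  intro m
  induction m with
  | zero =>
    intro f K _ H p _ hrk _
    exfalso
    have h1 : Et p = ∅ := by
      simp [Et]
    rw [h1] at hrk
    have h2 := hrk.trans (rk_le_encard K ∅)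
    rw [Set.encard_empty] at h2
    simp at h2
  | succ m ih =>
    intro f K hK H p hpX hrk hH
    obtain ⟨x, u, rfl⟩ : ∃ (x : Pt N) (u : Fin m → Pt N), (Fin.cons x u : Fin (m + 1) → Pt N) = p :=
      ⟨p 0, Fin.tail p, Fin.cons_self_tail p⟩
    have hx : x ∈ X := hpX 0
    have hu : ∀ i, u i ∈ X := fun i => hpX i.succ
    rw [Et_cons] at hrk
    rcases step hd hrk (hK.rk_le hx) (finite_E x) with h1 | ⟨K', hKK', h1, h2⟩
    · refine ⟨∅, GoodCurve.empty X, 0, fun y hy y' hy' => ?_⟩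
      have hgen : ∀ z ∈ X, (Fin.cons z u : Fin (m + 1) → Pt N) ∈
          Loc K (Fin.cons x u : Fin (m + 1) → Pt N) := fun z hz =>
        cons_mem_Loc ((hK.mono (le_ext K (Et u))).generic hirr hx h1 hz)
      have h2 := hH _ (hgen y hy) _ (hgen y' hy')
      rw [Fin.sum_univ_succ] at h2
      simp only [Fin.cons_zero, Fin.cons_succ, sub_self, Finset.sum_const_zero,
        add_zero] at h2
      exact AddSubgroup.mem_sup_left h2
    · have hK' := hK.mono hKK'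
      set C₁ : Set (Pt N) := {y | (fun _ : Unit => y) ∈ Loc K' (fun _ : Unit => x)} with hC₁
      have hgood : GoodCurve X C₁ := GoodCurve.loc hK' hx h1
      have h3 : ((m * (d - 1) + 1 : ℕ) : ℕ∞) ≤ rk K' (Et u) := by
        have h4 : (((m + 1) * (d - 1) + 1 : ℕ) : ℕ∞) =
            ((m * (d - 1) + 1 : ℕ) : ℕ∞) + ((d - 1 : ℕ) : ℕ∞) := by
          have : (m + 1) * (d - 1) + 1 = (m * (d - 1) + 1) + (d - 1) := by ring
          exact_mod_cast this
        rw [h4] at h2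
        exact (ENat.add_le_add_iff_right (by simp)).1 h2
      obtain ⟨C₂, hgood₂, i, hi⟩ := ih (fun i => f i.succ) K' hK'
        (H ⊔ AddSubgroup.closure (f 0 '' C₁)) u hu h3 (by
          intro q hq q' hq'
          obtain ⟨y, hy⟩ := exists_cons x u q hq
          obtain ⟨y', hy'⟩ := exists_cons x u q' hq'
          have h5 := hH _ (Loc_mono hKK' _ hy) _ (Loc_mono hKK' _ hy')
          rw [Fin.sum_univ_succ] at h5
          simp only [Fin.cons_zero, Fin.cons_succ] at h5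
          have hyC : y ∈ C₁ := inChart_unit_of_cons hy
          have hyC' : y' ∈ C₁ := inChart_unit_of_cons hy'
          have h6 : f 0 y - f 0 y' ∈ AddSubgroup.closure (f 0 '' C₁) :=
            AddSubgroup.sub_mem _
              (AddSubgroup.subset_closure (Set.mem_image_of_mem _ hyC))
              (AddSubgroup.subset_closure (Set.mem_image_of_mem _ hyC'))
          have h7 : ∑ i, (f (Fin.succ i) (q i) - f (Fin.succ i) (q' i)) =
              (f 0 y - f 0 y' + ∑ i, (f (Fin.succ i) (q i) - f (Fin.succ i) (q' i))) -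
                (f 0 y - f 0 y') := by abel
          rw [h7]
          exact AddSubgroup.sub_mem _ (AddSubgroup.mem_sup_left h5) (AddSubgroup.mem_sup_right h6))
      refine ⟨C₁ ∪ C₂, hgood.union hgood₂, i.succ, fun y hy y' hy' => ?_⟩
      have h5 := hi y hy y' hy'
      refine (sup_le (sup_le le_sup_left ?_) ?_ :
        H ⊔ AddSubgroup.closure (f 0 '' C₁) ⊔ AddSubgroup.closure (⋃ j : Fin m, f j.succ '' C₂) ≤
          H ⊔ AddSubgroup.closure (⋃ j, f j '' (C₁ ∪ C₂))) h5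
      · refine le_trans (AddSubgroup.closure_mono ?_) le_sup_right
        rintro _ ⟨z, hz, rfl⟩
        exact Set.mem_iUnion.2 ⟨0, z, Or.inl hz, rfl⟩
      · refine le_trans (AddSubgroup.closure_mono ?_) le_sup_right
        rintro _ hw
        obtain ⟨j, z, hz, rfl⟩ := Set.mem_iUnion.1 hw
        exact Set.mem_iUnion.2 ⟨j.succ, z, Or.inr hz, rfl⟩

/-- The closed-set form. -/
theorem large {N d m : ℕ} (hd : 1 ≤ d) {X : Set (Pt N)} (hX : IsVariety X d)
    {Z : Set (Fin m → Pt N)} (hZ : IsClosedSet Z) (hZX : ∀ p ∈ Z, ∀ i, p i ∈ X)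
    (hdim : DimGE Z (m * (d - 1) + 1)) {A : Type} [AddCommGroup A] (f : Fin m → Pt N → A)
    (R : AddSubgroup A) (hrel : ∀ p ∈ Z, ∀ q ∈ Z, ∑ i, (f i (p i) - f i (q i)) ∈ R) :
    ∃ C, GoodCurve X C ∧ C.Nonempty ∧ ∃ i, ∀ x ∈ X, f i x ∈ R ⊔
      AddSubgroup.closure (⋃ j, f j '' C) := by
  obtain ⟨T₁, hT₁, h₁⟩ := closed_over hX.closed
  obtain ⟨T₂, hT₂, h₂⟩ := rel_over hX.dim_lt
  obtain ⟨T₃, hT₃, h₃⟩ := closed_over hZ
  set K : Subfield ℂ := Subfield.closure (T₁ ∪ T₂ ∪ T₃) with hK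
  have hcK : Countable K := by
    rw [← Cardinal.mk_le_aleph0_iff]
    refine (Subfield.cardinalMk_closure_le_max _).trans ?_
    rw [max_le_iff]
    refine ⟨?_, le_rfl⟩
    rw [Cardinal.le_aleph0_iff_set_countable]
    exact (hT₁.union hT₂).union hT₃
  have hsub : T₁ ∪ T₂ ∪ T₃ ⊆ (K : Set ℂ) := Subfield.subset_closure
  have hbase : Base X d K :=
    ⟨h₁ K (fun t ht => hsub (Or.inl (Or.inl ht))), h₂ K (fun t ht => hsub (Or.inl (Or.inr ht)))⟩
  obtain ⟨S, hS⟩ := h₃ K (fun t ht => hsub (Or.inr ht))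
  obtain ⟨p, hpZ, hrk⟩ := exists_point hS hdim
  have hloc : ∀ q ∈ Loc K p, q ∈ Z := by
    intro q hq
    rw [hS] at hpZ ⊢
    intro F hF
    exact hq F (hpZ F hF)
  obtain ⟨C₁, hC₁, i, hi⟩ := induction hd hX.irreducible m f K hbase R p
    (hZX p hpZ) hrk (fun q hq q' hq' => hrel q (hloc q hq) q' (hloc q' hq'))
  obtain ⟨x₀, hx₀⟩ := hX.nonempty
  have hC₂ : GoodCurve X {y | (fun _ : Unit => y) ∈ Loc ⊤ (fun _ : Unit => x₀)} :=
    GoodCurve.loc (hbase.mono le_top) hx₀ (rk_top _)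
  obtain ⟨C, hC, hC1C, hx₀C⟩ : ∃ C, GoodCurve X C ∧ C₁ ⊆ C ∧ x₀ ∈ C :=
    ⟨_, hC₁.union hC₂, Set.subset_union_left, Or.inr (self_mem_Loc _ _)⟩
  refine ⟨C, hC, ⟨x₀, hx₀C⟩, i, fun x hx => ?_⟩
  have hle : R ⊔ AddSubgroup.closure (⋃ j, f j '' C₁) ≤ R ⊔ AddSubgroup.closure (⋃ j, f j '' C) :=
    sup_le_sup_left (AddSubgroup.closure_mono (Set.iUnion_mono fun j => Set.image_mono hC1C)) R
  have h1 := hle (hi x hx x₀ hx₀)
  have h2 : f i x₀ ∈ R ⊔ AddSubgroup.closure (⋃ j, f j '' C) :=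
    AddSubgroup.mem_sup_right (AddSubgroup.subset_closure
      (Set.mem_iUnion.2 ⟨i, x₀, hx₀C, rfl⟩))
  have h3 := AddSubgroup.add_mem _ h1 h2
  rwa [sub_add_cancel] at h3

end Pool.Agent.N430.EQ
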