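import Pool.Agent.N164.RP.Final
import Pool.Agent.N430.EQ.Defs

/-!
# Linear maps of projective space, closed sets, and rational equivalence
-/

set_option autoImplicit false

open MvPolynomial
open scoped LinearAlgebra.Projectivization

namespace Pool.Agent.N430.EQ

open Pool.Agent.N164.RP

variable {ι : Type} {N : ℕ}

theorem isCoord_move {L : Lin N} {v : Fin (N + 1) → ℂ} {p : Pt N} (h : IsCoord v p) :
    IsCoord (L v) (move L p) := by
  obtain ⟨h0, rfl⟩ := h
  refine ⟨?_, ?_⟩
  · intro h1
    exact h0 (L.injective (by rw [h1, map_zero]))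
  · rw [move, Projectivization.map_mk]
    rfl

theorem coord_unique {v : Fin (N + 1) → ℂ} {p q : Pt N} (h : IsCoord v p) (h' : IsCoord v q) :
    p = q := by
  obtain ⟨h0, rfl⟩ := h
  obtain ⟨h1, rfl⟩ := h'
  rfl

theorem move_mul (L L' : Lin N) (p : Pt N) : move (L * L') p = move L (move L' p) :=
  coord_unique (isCoord_move (isCoord_rep p)) (isCoord_move (isCoord_move (isCoord_rep p)))

theorem move_one (p : Pt N) : move (1 : Lin N) p = p :=
  coord_unique (isCoord_move (isCoord_rep p)) (isCoord_rep p)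

theorem move_symm_move (L : Lin N) (p : Pt N) : move L.symm (move L p) = p := by
  refine coord_unique (isCoord_move (isCoord_move (isCoord_rep p))) ?_
  rw [LinearEquiv.symm_apply_apply]
  exact isCoord_rep p

theorem move_move_symm (L : Lin N) (p : Pt N) : move L (move L.symm p) = p := by
  refine coord_unique (isCoord_move (isCoord_move (isCoord_rep p))) ?_
  rw [LinearEquiv.apply_symm_apply]
  exact isCoord_rep p

/-- The entries of the matrix. -/
def ent (L : Lin N) (j k : Fin (N + 1)) : ℂ := L (Pi.single k 1) j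

theorem apply_eq (L : Lin N) (v : Fin (N + 1) → ℂ) (j : Fin (N + 1)) :
    L v j = ∑ k, ent L j k * v k := by
  have h := LinearMap.pi_apply_eq_sum_univ L.toLinearMap v
  have h1 := congrFun h j
  rw [LinearEquiv.coe_coe] at h1
  rw [h1, Finset.sum_apply]
  refine Finset.sum_congr rfl fun k _ => ?_
  have h2 : (fun j => if k = j then (1 : ℂ) else 0) = Pi.single k 1 := by
    funext i
    simp [Pi.single_apply, eq_comm]
  rw [h2, Pi.smul_apply, smul_eq_mul, ent, mul_comm]

/-- Substitution of the linear map. -/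
noncomputable def subst (L : Lin N) (F : Poly ι N) : Poly ι N :=
  bind₁ (fun s : ι × Fin (N + 1) => ∑ k, C (ent L s.2 k) * X (s.1, k)) F

theorem aeval_subst {A : Type} [CommRing A] [Algebra ℂ A] (L : Lin N) (F : Poly ι N)
    (x : ι × Fin (N + 1) → A) : aeval x (subst L F) =
      aeval (fun s => ∑ k, algebraMap ℂ A (ent L s.2 k) * x (s.1, k)) F := by
  rw [subst, aeval_bind₁]
  congr 2
  funext s
  simp [map_sum]

theorem aeval_eq (F : Poly ι N) (w : ι × Fin (N + 1) → ℂ) : aeval w F = eval w F :=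
  DFunLike.congr_fun (coe_aeval_eq_eval w) F

theorem eval_subst (L : Lin N) (F : Poly ι N) (v : ι → Fin (N + 1) → ℂ) :
    eval (fun s : ι × Fin (N + 1) => v s.1 s.2) (subst L F) =
      eval (fun s : ι × Fin (N + 1) => L (v s.1) s.2) F := by
  have h := aeval_subst (A := ℂ) L F (fun s : ι × Fin (N + 1) => v s.1 s.2)
  rw [aeval_eq, aeval_eq] at h
  have h1 : (fun s : ι × Fin (N + 1) => ∑ k, (algebraMap ℂ ℂ) (ent L s.2 k) * v s.1 k) =
      fun s : ι × Fin (N + 1) => L (v s.1) s.2 := by
    funext s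
    rw [apply_eq]
    rfl
  rw [h]
  exact congrArg (fun w => eval w F) h1

theorem vanishes_subst (L : Lin N) (F : Poly ι N) (p : ι → Pt N) :
    Vanishes (subst L F) p ↔ Vanishes F (fun i => move L (p i)) := by
  constructor
  · intro h v hv
    have h1 := h (fun i => L.symm (v i)) (fun i => by
      have h2 := isCoord_move (L := L.symm) (hv i)
      rwa [move_symm_move] at h2)
    have h3 := eval_subst L F (fun i => L.symm (v i))
    have h4 : (fun s : ι × Fin (N + 1) => L (L.symm (v s.1)) s.2) =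
        fun s : ι × Fin (N + 1) => v s.1 s.2 := by
      funext s
      rw [LinearEquiv.apply_symm_apply]
    rw [h4] at h3
    exact h3.symm.trans h1
  · intro h v hv
    have h3 := eval_subst L F v
    have h4 := h (fun i => L (v i)) (fun i => isCoord_move (hv i))
    exact h3.trans h4

theorem isClosedSet_move {C : Set (Pt N)} (hC : IsClosedSet (one C)) (L : Lin N) :
    IsClosedSet (one (move L '' C)) := by
  obtain ⟨S, hS⟩ := hC
  refine ⟨{G | ∃ F ∈ S, G = subst L.symm F}, ?_⟩
  ext p
  constructor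
  · rintro ⟨x, hx, hxp⟩ _ ⟨F, hF, rfl⟩
    rw [vanishes_subst]
    have h1 : (fun _ : Unit => x) ∈ one C := hx
    rw [hS] at h1
    have h2 : (fun i => move L.symm (p i)) = fun _ : Unit => x := by
      funext i
      rw [show p i = move L x from hxp.symm, move_symm_move]
    rw [h2]
    exact h1 F hF
  · intro h
    refine ⟨move L.symm (p ()), ?_, move_move_symm L _⟩
    have h1 : (fun _ : Unit => move L.symm (p ())) ∈ one C := by
      rw [hS]
      intro F hF
      have h2 := h _ ⟨F, hF, rfl⟩
      rw [vanishes_subst] at h2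
      exact h2
    exact h1

theorem rk_move_le {K : Subfield ℂ} (L : Lin N) (hL : ∀ j k, ent L j k ∈ K) (p : Pt N) :
    rk K (E (move L p)) ≤ rk K (E p) := by
  apply rk_le_of_subset_closure
  rintro _ ⟨⟨u, j⟩, rfl⟩
  apply mem_closure_of_mem_ext
  set v : Fin (N + 1) → ℂ := fun j => affine (fun _ : Unit => can p) (fun _ : Unit => p) ((), j)
    with hv
  have hvK : ∀ j, v j ∈ ext K (E p) := fun j => subset_ext K _ ⟨((), j), rfl⟩
  have hvc : IsCoord v p := by
    have h1 := isCoord_affine (a := fun _ : Unit => can p) (p := fun _ : Unit => p)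
      (fun _ => rep_can p) (fun _ => 1) (fun _ => one_ne_zero) ()
    simpa only [one_mul] using h1
  have hLv : ∀ j, L v j ∈ ext K (E p) := by
    intro j
    rw [apply_eq]
    exact sum_mem fun k _ => mul_mem (le_ext K _ (hL j k)) (hvK k)
  rw [← affine_of_isCoord (v := fun _ : Unit => L v) (fun _ => isCoord_move hvc)]
  exact div_mem (hLv _) (hLv _)

theorem GoodCurve.move {X C : Set (Pt N)} (hC : GoodCurve X C) (L : Lin N)
    (hL : ∀ x ∈ X, move L x ∈ X) : GoodCurve X (move L '' C) where
  subset := by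
    rintro _ ⟨x, hx, rfl⟩
    exact hL x (hC.subset hx)
  closed := isClosedSet_move hC.closed L
  small := by
    intro a s hs
    by_contra hcon
    push Not at hcon
    have hdim : DimGE (one (EQ.move L '' C)) 2 := ⟨a, s, hs, hcon⟩
    obtain ⟨T₁, hT₁, h₁⟩ := closed_over hC.closed
    obtain ⟨T₂, hT₂, h₂⟩ := rel_over (X := C) (d := 1) hC.dim
    obtain ⟨T₃, hT₃, h₃⟩ := closed_over (isClosedSet_move hC.closed L)
    have hT₄ : (Set.range fun s : Fin (N + 1) × Fin (N + 1) => ent L s.1 s.2).Countable :=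
      Set.countable_range _
    set T₄ : Set ℂ := Set.range fun s : Fin (N + 1) × Fin (N + 1) => ent L s.1 s.2
    set K : Subfield ℂ := Subfield.closure (T₁ ∪ T₂ ∪ T₃ ∪ T₄) with hK
    have hcK : Countable K := by
      rw [← Cardinal.mk_le_aleph0_iff]
      refine (Subfield.cardinalMk_closure_le_max _).trans ?_
      rw [max_le_iff]
      refine ⟨?_, le_rfl⟩
      rw [Cardinal.le_aleph0_iff_set_countable]
      exact ((hT₁.union hT₂).union hT₃).union hT₄
    have hsub : T₁ ∪ T₂ ∪ T₃ ∪ T₄ ⊆ (K : Set ℂ) := Subfield.subset_closure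
    have hbase : Base C 1 K :=
      ⟨h₁ K (fun t ht => hsub (Or.inl (Or.inl (Or.inl ht)))),
        h₂ K (fun t ht => hsub (Or.inl (Or.inl (Or.inr ht))))⟩
    obtain ⟨S, hS⟩ := h₃ K (fun t ht => hsub (Or.inl (Or.inr ht)))
    obtain ⟨p, hpZ, hrk⟩ := exists_point hS hdim
    obtain ⟨x, hx, hxp⟩ := hpZ
    have h1 : p = fun _ : Unit => EQ.move L x := funext fun _ => hxp.symm
    rw [h1, Et_unit] at hrk
    have h2 := hrk.trans ((rk_move_le L (fun j k => hsub (Or.inr ⟨(j, k), rfl⟩)) x).trans
      (hbase.rk_le hx))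
    exact absurd h2 (by decide)

/-! ### Rational equivalence -/

section
variable {K : Type} [Field K] [Algebra ℂ K]

/-- The linear map over `K`. -/
noncomputable def moveK (L : Lin N) (x : Fin (N + 1) → K) : Fin (N + 1) → K :=
  fun j => ∑ k, algebraMap ℂ K (ent L j k) * x k

theorem ent_mul (L : Lin N) (i k : Fin (N + 1)) :
    ∑ j, ent L.symm i j * ent L j k = if i = k then 1 else 0 := by
  have h := apply_eq L.symm (L (Pi.single k 1)) i
  rw [LinearEquiv.symm_apply_apply] at h
  rw [Pi.single_apply] at h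
  rw [h]
  rfl

theorem moveK_symm_moveK (L : Lin N) (x : Fin (N + 1) → K) : moveK L.symm (moveK L x) = x := by
  funext i
  simp only [moveK, Finset.mul_sum]
  rw [Finset.sum_comm]
  have h1 : ∀ k, ∑ j, algebraMap ℂ K (ent L.symm i j) * (algebraMap ℂ K (ent L j k) * x k) =
      (if i = k then 1 else 0) * x k := by
    intro k
    have h2 := congrArg (algebraMap ℂ K) (ent_mul L i k)
    rw [map_sum] at h2
    simp only [map_mul] at h2
    simp only [← mul_assoc]
    rw [← Finset.sum_mul, h2]
    split_ifs <;> simp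
  simp only [h1]
  simp

theorem moveK_ne_zero (L : Lin N) {x : Fin (N + 1) → K} (hx : x ≠ 0) : moveK L x ≠ 0 := by
  intro h
  apply hx
  rw [← moveK_symm_moveK L x, h]
  funext j
  simp [moveK]

theorem isPointOf_moveK {X : Set (Pt N)} {L : Lin N} (hL : ∀ x ∈ X, move L x ∈ X)
    {x : Fin (N + 1) → K} (hx : IsPointOf x X) : IsPointOf (moveK L x) X := by
  refine ⟨moveK_ne_zero L hx.1, fun F hF => ?_⟩
  have h1 : VanishesOn (subst L F) (one X) := by
    intro p hp
    rw [vanishes_subst]
    exact hF _ (hL _ hp)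
  have h2 := hx.2 _ h1
  rw [aeval_subst] at h2
  exact h2

theorem nonunits_sum {O : ValuationSubring K} {σ : Type} (s : Finset σ) (f : σ → K)
    (h : ∀ i ∈ s, f i ∈ O.nonunits) : ∑ i ∈ s, f i ∈ O.nonunits := by
  classical
  induction s using Finset.induction_on with
  | empty =>
    rw [Finset.sum_empty, ValuationSubring.mem_nonunits_iff, map_zero]
    exact zero_lt_one
  | insert i s hi ih =>
    rw [Finset.sum_insert hi, ValuationSubring.mem_nonunits_iff]
    refine O.valuation.map_add_lt ?_ ?_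
    · exact (ValuationSubring.mem_nonunits_iff O).1 (h i (Finset.mem_insert_self i s))
    · exact (ValuationSubring.mem_nonunits_iff O).1
        (ih fun j hj => h j (Finset.mem_insert_of_mem hj))

theorem nonunits_mul {O : ValuationSubring K} {a b : K} (ha : a ∈ O) (hb : b ∈ O.nonunits) :
    a * b ∈ O.nonunits := by
  rw [ValuationSubring.mem_nonunits_iff] at hb ⊢
  rw [← O.valuation_le_one_iff] at ha
  rw [map_mul]
  exact mul_lt_one_of_nonneg_of_lt_one_right ha zero_le hb

theorem hasImage_moveK {O : ValuationSubring K} (hO : IsPlace O) {L : Lin N}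
    {x : Fin (N + 1) → K} {p : Pt N} (h : HasImage O x p) : HasImage O (moveK L x) (move L p) := by
  obtain ⟨c, v, hv, h1⟩ := h
  refine ⟨c, L v, isCoord_move hv, fun j => ?_⟩
  have h2 : c * moveK L x j - algebraMap ℂ K (L v j) =
      ∑ k, algebraMap ℂ K (ent L j k) * (c * x k - algebraMap ℂ K (v k)) := by
    rw [apply_eq, map_sum, moveK, Finset.mul_sum, ← Finset.sum_sub_distrib]
    refine Finset.sum_congr rfl fun k _ => ?_
    rw [map_mul]
    ring
  rw [h2]
  exact nonunits_sum _ _ fun k _ => nonunits_mul (hO.2 _) (h1 k)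

end

theorem mapDomain_sum_pt {σ : Type} (L : Lin N) (s : Finset σ) (n : σ → ℤ) (c : σ → Pt N) :
    Finsupp.mapDomain (move L) (∑ O ∈ s, n O • pt (c O)) = ∑ O ∈ s, n O • pt (move L (c O)) := by
  rw [Finsupp.mapDomain_finsetSum]
  refine Finset.sum_congr rfl fun O _ => ?_
  rw [Finsupp.mapDomain_smul, pt, Finsupp.mapDomain_single]
  rfl

theorem rat_move {X : Set (Pt N)} {L : Lin N} (hL : ∀ x ∈ X, move L x ∈ X) {z : Cycle N}
    (hz : z ∈ Rat X) : Finsupp.mapDomain (move L) z ∈ Rat X := by
  refine AddSubgroup.closure_induction (p := fun z _ => Finsupp.mapDomain (move L) z ∈ Rat X)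
    ?_ ?_ ?_ ?_ hz
  · rintro z ⟨K, iK, iA, x, g, T, n, c, hK, hx, hg, hT, hT', rfl⟩
    apply AddSubgroup.subset_closure
    refine ⟨K, iK, iA, moveK L x, g, T, n, fun O => move L (c O), hK, isPointOf_moveK hL hx, hg,
      fun O hO => ?_, hT', mapDomain_sum_pt L T n c⟩
    obtain ⟨h1, h2, h3⟩ := hT O hO
    exact ⟨h1, h2, hasImage_moveK h1 h3⟩
  · rw [Finsupp.mapDomain_zero]
    exact (Rat X).zero_mem
  · intro a b _ _ ha hb
    rw [Finsupp.mapDomain_add]
    exact (Rat X).add_mem ha hb
  · intro a _ ha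
    have h1 : Finsupp.mapDomain (move L) (-a) = -Finsupp.mapDomain (move L) a :=
      map_neg (Finsupp.mapDomain.addMonoidHom (move L)) a
    rw [h1]
    exact (Rat X).neg_mem ha

end Pool.Agent.N430.EQ
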