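import Pool.Agent.N430.EQ.Ind
import Pool.Agent.N430.EQ.Alg

/-!
# Large relations with coefficients in a group ring
-/

set_option autoImplicit false

open MvPolynomial
open scoped LinearAlgebra.Projectivization

namespace Pool.Agent.N430.EQ

open Pool.Agent.N164.RP

variable {N : ℕ} {G : Type} [Group G] [Fintype G]

theorem act_pt (ρ : G →* Lin N) (α : G → ℤ) (x : Pt N) :
    act ρ α (pt x) = ∑ g, α g • pt (move (ρ g) x) := by
  rw [act]
  refine Finset.sum_congr rfl fun g _ => ?_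
  rw [pt, Finsupp.mapDomain_single]
  rfl

theorem act_add (ρ : G →* Lin N) (α β : G → ℤ) (z : Cycle N) :
    act ρ (α + β) z = act ρ α z + act ρ β z := by
  simp only [act, ← Finset.sum_add_distrib, Pi.add_apply, add_smul]

theorem act_neg (ρ : G →* Lin N) (α : G → ℤ) (z : Cycle N) :
    act ρ (-α) z = -act ρ α z := by
  simp only [act, Pi.neg_apply, neg_smul, Finset.sum_neg_distrib]

theorem act_zero (ρ : G →* Lin N) (z : Cycle N) : act ρ 0 z = 0 := by
  simp [act]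

theorem act_zsmul (ρ : G →* Lin N) (n : ℤ) (α : G → ℤ) (z : Cycle N) :
    act ρ (n • α) z = n • act ρ α z := by
  simp only [act, Finset.smul_sum, Pi.smul_apply, smul_eq_mul, mul_smul]

/-- `act` is additive in the cycle. -/
theorem act_sum (ρ : G →* Lin N) (α : G → ℤ) {σ : Type} (s : Finset σ) (c : σ → ℤ)
    (z : σ → Cycle N) : act ρ α (∑ i ∈ s, c i • z i) = ∑ i ∈ s, c i • act ρ α (z i) := by
  simp only [act, Finset.smul_sum]
  rw [Finset.sum_comm]
  refine Finset.sum_congr rfl fun g _ => ?_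
  rw [Finsupp.mapDomain_finsetSum, Finset.smul_sum]
  refine Finset.sum_congr rfl fun i _ => ?_
  rw [Finsupp.mapDomain_smul, smul_comm]

theorem act_left (ρ : G →* Lin N) (h : G) (α : G → ℤ) (x : Pt N) :
    act ρ (fun g => α (h⁻¹ * g)) (pt x) = Finsupp.mapDomain (move (ρ h)) (act ρ α (pt x)) := by
  rw [act_pt, act_pt, mapDomain_sum_pt]
  refine (Fintype.sum_equiv (Equiv.mulLeft h) _ _ fun g => ?_).symm
  rw [Equiv.coe_mulLeft, inv_mul_cancel_left, map_mul, move_mul]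

theorem act_right (ρ : G →* Lin N) (h : G) (α : G → ℤ) (x : Pt N) :
    act ρ (fun g => α (g * h⁻¹)) (pt x) = act ρ α (pt (move (ρ h) x)) := by
  rw [act_pt, act_pt]
  refine (Fintype.sum_equiv (Equiv.mulRight h) _ _ fun g => ?_).symm
  rw [Equiv.coe_mulRight, mul_inv_cancel_right, map_mul, move_mul]

theorem goodCurve_iUnion {X C : Set (Pt N)} (hC : GoodCurve X C) (ρ : G →* Lin N)
    (hρ : ∀ g, ∀ x ∈ X, move (ρ g) x ∈ X) : GoodCurve X (⋃ g, move (ρ g) '' C) := by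
  classical
  have h : ∀ s : Finset G, GoodCurve X (⋃ g ∈ s, move (ρ g) '' C) := by
    intro s
    induction s using Finset.induction_on with
    | empty =>
      simp only [Finset.notMem_empty, Set.iUnion_of_empty, Set.iUnion_empty]
      exact GoodCurve.empty X
    | insert g s hg ih =>
      rw [Finset.set_biUnion_insert]
      exact (GoodCurve.move hC (ρ g) (hρ g)).union ih
  have h1 := h Finset.univ
  simpa using h1

theorem main {N d : ℕ} (hd : 1 ≤ d) {X : Set (Pt N)} (hX : IsVariety X d)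
    (ρ : G →* Lin N) (hρ : ∀ g, ∀ x ∈ X, move (ρ g) x ∈ X)
    (R : AddSubgroup (Cycle N)) (hR : ∀ g, ∀ z ∈ R, Finsupp.mapDomain (move (ρ g)) z ∈ R)
    (e : G → ℤ)
    (h : ∀ (V : Type) [AddCommGroup V] [Module ℚ V] (σ : Representation ℚ G V),
      σ.IsIrreducible → NonzeroOn e σ → LargeRelation ρ X d R σ) :
    ∃ C ⊆ X, IsClosedSet (one C) ∧ ¬ DimGE (one C) 2 ∧ ∃ n : ℕ, n ≠ 0 ∧
      ∀ z : Cycle N, IsOn z X → ∃ w : Cycle N, IsOn w C ∧ n • act ρ e z - w ∈ R := by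
  classical
  let I : AddSubgroup (G → ℤ) :=
    { carrier := {α | ∃ C, GoodCurve X C ∧ ∀ x ∈ X, act ρ α (pt x) ∈
        R ⊔ AddSubgroup.closure (pt '' C)}
      zero_mem' := ⟨∅, GoodCurve.empty X, fun x _ => by
        rw [act_zero]
        exact AddSubgroup.zero_mem _⟩
      add_mem' := by
        rintro α β ⟨C, hC, h1⟩ ⟨D, hD, h2⟩
        refine ⟨C ∪ D, hC.union hD, fun x hx => ?_⟩
        rw [act_add]
        refine AddSubgroup.add_mem _ ?_ ?_
        · exact sup_le_sup_left (AddSubgroup.closure_mono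
            (Set.image_mono Set.subset_union_left)) R (h1 x hx)
        · exact sup_le_sup_left (AddSubgroup.closure_mono
            (Set.image_mono Set.subset_union_right)) R (h2 x hx)
      neg_mem' := by
        rintro α ⟨C, hC, h1⟩
        refine ⟨C, hC, fun x hx => ?_⟩
        rw [act_neg]
        exact AddSubgroup.neg_mem _ (h1 x hx) }
  have hI : ∀ α, α ∈ I ↔ ∃ C, GoodCurve X C ∧ ∀ x ∈ X, act ρ α (pt x) ∈
      R ⊔ AddSubgroup.closure (pt '' C) := fun α => Iff.rfl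
  have hl : ∀ h : G, ∀ α ∈ I, (fun g => α (h⁻¹ * g)) ∈ I := by
    rintro g α ⟨C, hC, h1⟩
    refine ⟨move (ρ g) '' C, GoodCurve.move hC (ρ g) (hρ g), fun x hx => ?_⟩
    rw [act_left]
    obtain ⟨r, hr, w, hw, hrw⟩ := AddSubgroup.mem_sup.1 (h1 x hx)
    rw [← hrw, Finsupp.mapDomain_add]
    refine AddSubgroup.add_mem _ (AddSubgroup.mem_sup_left (hR g r hr))
      (AddSubgroup.mem_sup_right ?_)
    have h2 : AddSubgroup.closure (pt '' C) ≤
        (AddSubgroup.closure (pt '' (move (ρ g) '' C))).comap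
          (Finsupp.mapDomain.addMonoidHom (move (ρ g))) := by
      rw [AddSubgroup.closure_le]
      rintro _ ⟨y, hy, rfl⟩
      change Finsupp.mapDomain (move (ρ g)) (pt y) ∈
        AddSubgroup.closure (pt '' (move (ρ g) '' C))
      rw [pt, Finsupp.mapDomain_single]
      exact AddSubgroup.subset_closure ⟨move (ρ g) y, ⟨y, hy, rfl⟩, rfl⟩
    exact h2 hw
  have hr : ∀ h : G, ∀ α ∈ I, (fun g => α (g * h⁻¹)) ∈ I := by
    rintro g α ⟨C, hC, h1⟩
    refine ⟨C, hC, fun x hx => ?_⟩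
    rw [act_right]
    exact h1 _ (hρ g x hx)
  obtain ⟨n, hn, hne⟩ : ∃ n : ℤ, n ≠ 0 ∧ n • e ∈ I := by
    by_contra hcon
    push Not at hcon
    obtain ⟨V, iV, iM, σ, hσ, heσ, hIσ⟩ := exists_rep I hl hr e hcon
    obtain ⟨m, Z, α, hZ, hZX, hdim, hα, hrel⟩ := h V σ hσ heσ
    obtain ⟨C, hC, -, i, hi⟩ := large hd hX hZ hZX hdim (fun i x => act ρ (α i) (pt x)) R
      (fun p hp q hq => by
        rw [Finset.sum_sub_distrib]
        exact hrel p hp q hq)
    have h2 : α i ∈ I := by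
      refine ⟨_, goodCurve_iUnion hC ρ hρ, fun x hx => ?_⟩
      refine sup_le_sup_left ?_ R (hi x hx)
      rw [AddSubgroup.closure_le]
      intro w hw
      obtain ⟨j, y, hy, rfl⟩ := Set.mem_iUnion.1 hw
      change act ρ (α j) (pt y) ∈ AddSubgroup.closure (pt '' ⋃ g, move (ρ g) '' C)
      rw [act_pt]
      refine AddSubgroup.sum_mem _ fun g _ => AddSubgroup.zsmul_mem _
        (AddSubgroup.subset_closure ?_) _
      exact ⟨move (ρ g) y, Set.mem_iUnion.2 ⟨g, y, hy, rfl⟩, rfl⟩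
    obtain ⟨v, hv⟩ := hα i
    exact hv (hIσ _ h2 v)
  obtain ⟨C, hC, h1⟩ := hne
  refine ⟨C, hC.subset, hC.closed, hC.dim, n.natAbs, Int.natAbs_ne_zero.2 hn, fun z hz => ?_⟩
  have h2 : n • act ρ e z ∈ R ⊔ AddSubgroup.closure (pt '' C) := by
    have h3 : z = ∑ p ∈ z.support, z p • pt p := by
      conv_lhs => rw [← Finsupp.sum_single z]
      rw [Finsupp.sum]
      refine Finset.sum_congr rfl fun p _ => ?_
      rw [pt, Finsupp.smul_single, smul_eq_mul, mul_one]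
    rw [← act_zsmul, h3, act_sum]
    exact AddSubgroup.sum_mem _ fun p hp => AddSubgroup.zsmul_mem _ (h1 p (hz p hp)) _
  have h3 : n.natAbs • act ρ e z ∈ R ⊔ AddSubgroup.closure (pt '' C) := by
    rcases Int.natAbs_eq n with h4 | h4
    · rw [h4] at h2
      rwa [natCast_zsmul] at h2
    · rw [h4, neg_smul, natCast_zsmul] at h2
      exact (AddSubgroup.neg_mem_iff _).1 h2
  obtain ⟨r, hr', w, hw, hrw⟩ := AddSubgroup.mem_sup.1 h3
  refine ⟨w, isOn_of_mem_closure hw, ?_⟩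
  rw [← hrw, add_sub_cancel_right]
  exact hr'

theorem main' {N d : ℕ} (hd : 1 ≤ d) {X : Set (Pt N)} (hX : IsVariety X d)
    (ρ : G →* Lin N) (hρ : ∀ g, ∀ x ∈ X, move (ρ g) x ∈ X)
    (Γ : AddSubgroup (Cycle N)) (hΓ : ∀ g, ∀ z ∈ Γ, Finsupp.mapDomain (move (ρ g)) z ∈ Γ)
    (e : G → ℤ)
    (h : ∀ (V : Type) [AddCommGroup V] [Module ℚ V] (σ : Representation ℚ G V),
      σ.IsIrreducible → NonzeroOn e σ → LargeRelation ρ X d (Rat X ⊔ Γ) σ) :
    ∃ C ⊆ X, IsClosedSet (one C) ∧ ¬ DimGE (one C) 2 ∧ ∃ n : ℕ, n ≠ 0 ∧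
      ∀ z : Cycle N, IsOn z X → ∃ w : Cycle N, IsOn w C ∧ n • act ρ e z - w ∈ Rat X ⊔ Γ := by
  refine main hd hX ρ hρ (Rat X ⊔ Γ) (fun g z hz => ?_) e h
  obtain ⟨r, hr, w, hw, rfl⟩ := AddSubgroup.mem_sup.1 hz
  rw [Finsupp.mapDomain_add]
  exact AddSubgroup.add_mem _ (AddSubgroup.mem_sup_left (rat_move (hρ g) hr))
    (AddSubgroup.mem_sup_right (hΓ g w hw))

end Pool.Agent.N430.EQ
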